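import Pool.Agent.H40d42.Hilb

open Pool.Agent.MPd42a57

universe u

namespace Pool.Agent.H40d42

/-- `γ_ind(m, lam)`: the supremum of the error of the pure greedy algorithm after `m` steps over all
`lam`-quasi-orthogonal dictionaries of `H` that are linearly independent. -/
noncomputable def gammaInd (H : Type*) [NormedAddCommGroup H] [InnerProductSpace ℝ H] (m : ℕ)
    (lam : ℝ) : ℝ :=
  sSup {x : ℝ | ∃ (D : Set H) (f : H) (φ r : ℕ → H), IsDictionary D ∧
    LinearIndependent ℝ (Subtype.val : D → H) ∧ QuasiOrthogonal lam D ∧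
    f ∈ A1 D ∧ IsPGA D f φ r ∧ x = ‖r m‖}

section Lower

variable {H : Type*} [NormedAddCommGroup H] [InnerProductSpace ℝ H]

lemma qo_orthonormal {w : Set H} (hw : Orthonormal ℝ (Subtype.val : w → H)) {lam : ℝ}
    (hlam : 1 ≤ lam) : QuasiOrthogonal lam w := by
  classical
  intro n g hn hg
  have hn0 : (0:ℝ) < n := by exact_mod_cast hn
  refine ⟨n, g, by nlinarith, hg, fun i => Submodule.subset_span ⟨i, rfl⟩, ?_⟩
  intro f hf
  by_contra hcon
  push Not at hcon
  set t := (lam * n) ^ (-(1/2) : ℝ) * ‖f‖ with ht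
  set S : Finset H := Finset.univ.image g with hS
  have hSw : ∀ s ∈ S, s ∈ w := by
    intro s hs
    rw [hS, Finset.mem_image] at hs
    obtain ⟨i, _, rfl⟩ := hs
    exact hg i
  set v : S → H := fun s => (s : H) with hv
  have hvo : Orthonormal ℝ v :=
    hw.comp (fun s : S => (⟨s, hSw s s.2⟩ : w)) (fun a b h => by
      apply Subtype.ext
      have := congrArg (fun x : w => (x : H)) h
      exact this)
  have hrange : Set.range g = Set.range v := by
    ext x
    simp only [Set.mem_range]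
    constructor
    · rintro ⟨i, rfl⟩
      exact ⟨⟨g i, by rw [hS, Finset.mem_image]; exact ⟨i, Finset.mem_univ _, rfl⟩⟩, rfl⟩
    · rintro ⟨⟨s, hs⟩, rfl⟩
      rw [hS, Finset.mem_image] at hs
      obtain ⟨i, _, hi⟩ := hs
      exact ⟨i, hi⟩
  rw [hrange, Submodule.mem_span_range_iff_exists_fun] at hf
  obtain ⟨c, hc⟩ := hf
  have h1 : ∀ s, inner ℝ f (v s) = c s := by
    intro s
    rw [← hc, real_inner_comm]
    exact hvo.inner_right_fintype c s
  have h2 : ‖f‖^2 = ∑ s, (c s)^2 := by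
    rw [← real_inner_self_eq_norm_sq]
    have h11 : inner ℝ f f = inner ℝ (∑ s, c s • v s) f := by rw [hc]
    rw [h11, sum_inner]
    apply Finset.sum_congr rfl
    intro s _
    rw [real_inner_smul_left, real_inner_comm, h1, sq]
  have h3 : ∀ s : S, (c s)^2 < t^2 := by
    intro s
    obtain ⟨i, _, hi⟩ := Finset.mem_image.1 (hS ▸ s.2 : (s:H) ∈ Finset.univ.image g)
    have h4 := hcon i
    rw [hi] at h4
    have h5 : inner ℝ f (s:H) = c s := h1 s
    rw [h5] at h4
    rw [← sq_abs (c s)]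
    exact pow_lt_pow_left₀ h4 (abs_nonneg _) two_ne_zero
  have hSne : (Finset.univ : Finset S).Nonempty := by
    refine ⟨⟨g ⟨0, hn⟩, ?_⟩, Finset.mem_univ _⟩
    rw [hS, Finset.mem_image]
    exact ⟨_, Finset.mem_univ _, rfl⟩
  have h6 : ‖f‖^2 < ∑ _s : S, t^2 := by
    rw [h2]
    exact Finset.sum_lt_sum_of_nonempty hSne (fun s _ => h3 s)
  rw [Finset.sum_const, nsmul_eq_mul] at h6
  have h7 : ((Finset.univ : Finset S).card : ℝ) ≤ n := by
    have : (Finset.univ : Finset S).card ≤ n := by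
      rw [Finset.card_univ, Fintype.card_coe]
      refine Finset.card_image_le.trans ?_
      simp
    exact_mod_cast this
  have h8 : t^2 = (lam * n)⁻¹ * ‖f‖^2 := by
    have hp : 0 < lam * n := by positivity
    rw [ht, mul_pow, ← Real.rpow_two ((lam * (n:ℝ)) ^ (-(1/2) : ℝ)), ← Real.rpow_mul hp.le]
    have e : (-(1/2) : ℝ) * 2 = -1 := by norm_num
    rw [e, Real.rpow_neg_one]
  have h9 : ((Finset.univ : Finset S).card : ℝ) * t^2 ≤ n * t^2 :=
    mul_le_mul_of_nonneg_right h7 (sq_nonneg _)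
  have h10 : (n:ℝ) * t^2 ≤ ‖f‖^2 := by
    rw [h8]
    have h11 : (n:ℝ) * (lam * n)⁻¹ ≤ 1 := by
      rw [mul_inv_le_iff₀ (by positivity)]
      nlinarith
    calc (n:ℝ) * ((lam * n)⁻¹ * ‖f‖^2) = ((n:ℝ) * (lam * n)⁻¹) * ‖f‖^2 := by ring
      _ ≤ 1 * ‖f‖^2 := mul_le_mul_of_nonneg_right h11 (sq_nonneg _)
      _ = ‖f‖^2 := one_mul _
  linarith

/-- The residuals in the orthonormal example. -/
noncomputable def rr (e : ℕ → H) (m i : ℕ) : H :=
  ∑ j ∈ Finset.Ico i (2*m), ((2*m : ℝ)⁻¹) • e j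

lemma inner_rr {e : ℕ → H} (he : Orthonormal ℝ e) (m i k : ℕ) :
    inner ℝ (rr e m i) (e k) = if i ≤ k ∧ k < 2*m then (2*m : ℝ)⁻¹ else 0 := by
  unfold rr
  rw [sum_inner]
  simp only [real_inner_smul_left, orthonormal_iff_ite.1 he]
  simp [Finset.mem_Ico]

theorem exists_lower [CompleteSpace H] (hH : ¬ FiniteDimensional ℝ H) {lam : ℝ} (hlam : 1 ≤ lam)
    {m : ℕ} (hm : 1 ≤ m) :
    ∃ (D : Set H) (f : H) (φ r : ℕ → H), IsDictionary D ∧
      LinearIndependent ℝ (Subtype.val : D → H) ∧ QuasiOrthogonal lam D ∧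
      f ∈ A1 D ∧ IsPGA D f φ r ∧ ‖r m‖ = 1/2 * (m:ℝ)^(-(1/2) : ℝ) := by
  classical
  obtain ⟨w, b, hb⟩ := exists_hilbertBasis ℝ H
  have hw : Orthonormal ℝ (Subtype.val : w → H) := by
    rw [← hb]; exact b.orthonormal
  have hinf : Infinite w := by
    rw [← not_finite_iff_infinite]
    intro hfin
    apply hH
    have := Fintype.ofFinite w
    exact Module.Finite.of_basis b.toOrthonormalBasis.toBasis
  obtain ⟨emb⟩ : Nonempty (ℕ ↪ w) := ⟨Infinite.natEmbedding w⟩
  set e : ℕ → H := fun i => ((emb i : w) : H) with he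
  have heo : Orthonormal ℝ e := hw.comp emb emb.injective
  have hm0 : (0:ℝ) < m := by exact_mod_cast hm
  have hpos : (0:ℝ) < (2*m : ℝ)⁻¹ := by positivity
  refine ⟨w, rr e m 0, e, rr e m, ⟨?_, ?_⟩, hw.linearIndependent, qo_orthonormal hw hlam, ?_, ?_, ?_⟩
  · intro g hg
    exact hw.1 ⟨g, hg⟩
  · have h1 := b.dense_span
    rw [hb, Subtype.range_coe] at h1
    exact Submodule.dense_iff_topologicalClosure_eq_top.2 h1
  · apply subset_closure
    unfold rr
    apply (convex_convexHull ℝ _).sum_mem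
    · intro i _; positivity
    · rw [Finset.sum_const, Nat.card_Ico, nsmul_eq_mul]
      push_cast
      field_simp
      simp
    · intro i _
      apply subset_convexHull
      exact Or.inl (emb i).2
  · refine ⟨rfl, fun i => ⟨(emb i).2, ?_, ?_⟩⟩
    · intro g hg
      by_cases hgi : ∃ k, i ≤ k ∧ k < 2*m ∧ e k = g
      · obtain ⟨k, hk1, hk2, rfl⟩ := hgi
        rw [inner_rr heo, inner_rr heo, if_pos ⟨hk1, hk2⟩, if_pos ⟨le_rfl, lt_of_le_of_lt hk1 hk2⟩]
      · have : inner ℝ (rr e m i) g = 0 := by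
          unfold rr
          rw [sum_inner]
          apply Finset.sum_eq_zero
          intro k hk
          rw [Finset.mem_Ico] at hk
          rw [real_inner_smul_left]
          have hne : (emb k : w) ≠ ⟨g, hg⟩ := by
            intro h
            apply hgi
            exact ⟨k, hk.1, hk.2, congrArg (fun x : w => (x : H)) h⟩
          have := hw.2 hne
          simp only at this
          rw [show inner ℝ (e k) g = 0 from this, mul_zero]
        rw [this, abs_zero]
        exact abs_nonneg _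
    · rw [inner_rr heo]
      by_cases hi : i < 2*m
      · rw [if_pos ⟨le_rfl, hi⟩]
        unfold rr
        rw [Finset.sum_eq_sum_Ico_succ_bot hi]
        abel
      · rw [if_neg (by tauto), zero_smul, sub_zero]
        unfold rr
        rw [Finset.Ico_eq_empty (by omega), Finset.Ico_eq_empty (by omega)]
  · have h1 : ‖rr e m m‖^2 = (1/2 * (m:ℝ)^(-(1/2) : ℝ))^2 := by
      rw [← real_inner_self_eq_norm_sq]
      have h2 : inner ℝ (rr e m m) (rr e m m) = ∑ k ∈ Finset.Ico m (2*m), (2*m : ℝ)⁻¹ * (2*m : ℝ)⁻¹ := by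
        conv_lhs => rw [show rr e m m = rr e m m from rfl]
        nth_rewrite 2 [rr]
        rw [inner_sum]
        apply Finset.sum_congr rfl
        intro k hk
        rw [Finset.mem_Ico] at hk
        rw [real_inner_smul_right, inner_rr heo, if_pos hk]
      rw [h2, Finset.sum_const, Nat.card_Ico, nsmul_eq_mul, mul_pow, ← Real.rpow_two ((m:ℝ)^(-(1/2) : ℝ)),
        ← Real.rpow_mul hm0.le]
      have e1 : (-(1/2) : ℝ) * 2 = -1 := by norm_num
      rw [e1, Real.rpow_neg_one]
      have e2 : 2 * m - m = m := by omega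
      rw [e2]
      field_simp
    have h3 := congrArg Real.sqrt h1
    rw [Real.sqrt_sq (norm_nonneg _), Real.sqrt_sq (by positivity)] at h3
    exact h3

end Lower

/-- The exact order for `1 ≤ lam < 2`, and upper exponents for `2 ≤ lam < 4`, for linearly independent
dictionaries. -/
theorem main :
    (∀ lam : ℝ, 1 ≤ lam → lam < 2 → ∃ C : ℝ, 0 < C ∧
      ∀ (H : Type u) [NormedAddCommGroup H] [InnerProductSpace ℝ H] [CompleteSpace H] (m : ℕ),
        1 ≤ m → gammaInd H m lam ≤ C * (m:ℝ)^(-(1/2) : ℝ) ∧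
          (¬ FiniteDimensional ℝ H → 1/2 * (m:ℝ)^(-(1/2) : ℝ) ≤ gammaInd H m lam)) ∧
    (∀ lam : ℝ, 2 ≤ lam → ∀ s : ℝ, 0 < s → s < 2/lam - 1/2 → ∃ C : ℝ, 0 < C ∧
      ∀ (H : Type u) [NormedAddCommGroup H] [InnerProductSpace ℝ H] [CompleteSpace H] (m : ℕ),
        1 ≤ m → gammaInd H m lam ≤ C * (m:ℝ)^(-s)) := by
  constructor
  · intro lam h1 h2
    obtain ⟨C, hC, hup⟩ := upper_indep.{u} (lam := lam) (κ := 0) (by linarith) le_rfl (by norm_num)
      (by linarith)
    refine ⟨C, hC, ?_⟩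
    intro H _ _ _ m hm
    have hm0 : (0:ℝ) < m := by exact_mod_cast hm
    have hall : ∀ x ∈ {x : ℝ | ∃ (D : Set H) (f : H) (φ r : ℕ → H), IsDictionary D ∧
        LinearIndependent ℝ (Subtype.val : D → H) ∧ QuasiOrthogonal lam D ∧
        f ∈ A1 D ∧ IsPGA D f φ r ∧ x = ‖r m‖}, x ≤ C * (m:ℝ)^(-(1/2) : ℝ) := by
      rintro x ⟨D, f, φ, r, hD, hli, hQ, hf, hpga, rfl⟩
      have := hup H D hD.1 hli hQ f hf φ r hpga m hm
      rwa [show (0:ℝ) - 1/2 = -(1/2) by norm_num] at this
    constructor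
    · apply Real.sSup_le hall (by positivity)
    · intro hH
      obtain ⟨D, f, φ, r, hD, hli, hQ, hf, hpga, hr⟩ := exists_lower hH h1 hm
      rw [← hr]
      exact le_csSup ⟨_, hall⟩ ⟨D, f, φ, r, hD, hli, hQ, hf, hpga, rfl⟩
  · intro lam h1 s hs0 hs
    have hl : 0 < lam := by linarith
    have h2 : 2/lam ≤ 1 := by rw [div_le_one hl]; exact h1
    have hk : lam * (1 - (1/2 - s)) < 2 := by
      have : s + 1/2 < 2/lam := by linarith
      rw [lt_div_iff₀ hl] at this
      linarith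
    obtain ⟨C, hC, hup⟩ := upper_indep.{u} (lam := lam) (κ := 1/2 - s) hl (by linarith) (by linarith) hk
    refine ⟨C, hC, ?_⟩
    intro H _ _ _ m hm
    have hm0 : (0:ℝ) < m := by exact_mod_cast hm
    apply Real.sSup_le _ (by positivity)
    rintro x ⟨D, f, φ, r, hD, hli, hQ, hf, hpga, rfl⟩
    have := hup H D hD.1 hli hQ f hf φ r hpga m hm
    rwa [show (1/2 - s:ℝ) - 1/2 = -s by ring] at this

end Pool.Agent.H40d42
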