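import Mathlib

namespace Pool.Agent.H40d42

/-- One step of the potential `p^2 / b`, repeated pick. -/
lemma step_old {p a b : ℝ} (hab : 0 < b - a^2) (hpa : a ≤ p) {p' : ℝ} (hp' : p - a ≤ p') :
    p^2 / b - 1 ≤ p'^2 / (b - a^2) := by
  have hb : 0 < b := by nlinarith [sq_nonneg a]
  have h1 : (p - a)^2 ≤ p'^2 := by
    apply pow_le_pow_left₀ (by linarith) hp'
  have h2 : p^2 / b - 1 ≤ (p-a)^2 / (b - a^2) := by
    rw [div_sub_one hb.ne', div_le_div_iff₀ hb hab]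
    nlinarith [sq_nonneg (p*a - b)]
  exact h2.trans (div_le_div_of_nonneg_right h1 hab.le)

/-- One step of the potential `p^2 / b`, new pick. -/
lemma step_new {p a b : ℝ} (ha : 0 ≤ a) (hab : 0 < b - a^2) (hp : 0 ≤ p) (hpb : b ≤ a * p) :
    p^2 / b + 3 ≤ (p + a)^2 / (b - a^2) := by
  have hb : 0 < b := by nlinarith [sq_nonneg a]
  have h2 : p^2 / b + 3 = (p^2 + 3 * b) / b := by
    field_simp
  rw [h2, div_le_div_iff₀ hb hab]
  have h3 : 0 ≤ (p * a - b) * (p * a + 3 * b) := by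
    apply mul_nonneg
    · linarith
    · have := mul_nonneg hp ha
      linarith
  have h4 : 0 ≤ a^2 * b := by positivity
  nlinarith

/-- The reciprocal of `b` increases. -/
lemma inv_step {b a P : ℝ} (hab : 0 < b - a^2) (hP : 0 < P) (hb : b ≤ a * P) :
    1 / b + 1 / P^2 ≤ 1 / (b - a^2) := by
  have hb0 : 0 < b := by nlinarith [sq_nonneg a]
  have h1 : 1 / b + 1 / P^2 = (P^2 + b) / (b * P^2) := by
    field_simp
  rw [h1, div_le_div_iff₀ (by positivity) hab, one_mul]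
  have h2 : b^2 ≤ a^2 * P^2 := by
    rw [← mul_pow]
    exact pow_le_pow_left₀ hb0.le hb 2
  nlinarith [sq_nonneg a, sq_nonneg P, mul_nonneg hb0.le (sq_nonneg a)]

/-- The data of one run of the algorithm. -/
structure Run (lam c : ℝ) (p a b : ℕ → ℝ) (d : ℕ → ℕ) : Prop where
  d0 : d 0 = 0
  b0 : b 0 ≤ 1
  p1 : ∀ m, 1 ≤ p m
  a0 : ∀ m, 0 ≤ a m
  a1 : ∀ m, a m ≤ 1
  bs : ∀ m, b (m+1) = b m - (a m)^2
  bn : ∀ m, 0 ≤ b m
  bap : ∀ m, b m ≤ a m * p m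
  st : ∀ m, (d (m+1) = d m + 1 ∧ p (m+1) = p m + a m) ∨ (d (m+1) = d m ∧ p m - a m ≤ p (m+1))
  qo : ∀ m n : ℕ, 1 ≤ n → p m - 2 ≤ Real.sqrt (lam * (d m + n)) * (Real.sqrt (b m) + c / Real.sqrt n)

variable {lam c : ℝ} {p a b : ℕ → ℝ} {d : ℕ → ℕ}

lemma Run.anti (h : Run lam c p a b d) {i m : ℕ} (him : i ≤ m) : b m ≤ b i := by
  have : Antitone b := antitone_nat_of_succ_le (fun n => by rw [h.bs]; nlinarith [sq_nonneg (a n)])
  exact this him

lemma Run.pot (h : Run lam c p a b d) (m : ℕ) (hm : 0 < b m) :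
    4 * (d m : ℝ) + 1 ≤ (p m)^2 / b m + m := by
  induction m with
  | zero =>
    rw [h.d0]
    have h1 : 1 ≤ (p 0)^2 / b 0 := by
      rw [le_div_iff₀ hm]
      nlinarith [h.p1 0, h.b0]
    push_cast
    linarith
  | succ m ih =>
    have hbm : 0 < b m := lt_of_lt_of_le hm (h.anti (Nat.le_succ m))
    have ih := ih hbm
    have hab : 0 < b m - (a m)^2 := by rw [← h.bs]; exact hm
    rw [h.bs]
    rcases h.st m with ⟨h1, h2⟩ | ⟨h1, h2⟩
    · rw [h1, h2]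
      have := step_new (h.a0 m) hab (by linarith [h.p1 m]) (h.bap m)
      push_cast
      linarith
    · rw [h1]
      have := step_old hab (by linarith [h.p1 m, h.a1 m]) h2
      push_cast
      linarith

lemma sum_rpow_ge {s : ℝ} (hs0 : 0 ≤ s) (hs : s < 1) (T : ℕ) :
    (((T:ℝ)+1)^(1 - s) - 1) / (1 - s) ≤ ∑ i ∈ Finset.range T, ((i:ℝ)+1)^(-s) := by
  induction T with
  | zero => simp
  | succ T ih =>
    rw [Finset.sum_range_succ]
    have hs1 : 0 < 1 - s := by linarith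
    have hT : (0:ℝ) < (T:ℝ)+1 := by positivity
    have key : (((T:ℝ)+1+1)^(1-s) - ((T:ℝ)+1)^(1-s)) / (1-s) ≤ ((T:ℝ)+1)^(-s) := by
      rw [div_le_iff₀ hs1]
      -- concavity via Bernoulli
      have h1 : ((T:ℝ)+1+1)^(1-s) = ((T:ℝ)+1)^(1-s) * (1 + 1/((T:ℝ)+1))^(1-s) := by
        rw [← Real.mul_rpow hT.le (by positivity)]
        congr 1
        field_simp
      have h2 : (1 + 1/((T:ℝ)+1))^(1-s) ≤ 1 + (1-s) * (1/((T:ℝ)+1)) := by
        apply rpow_one_add_le_one_add_mul_self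
        · have : (0:ℝ) ≤ 1/((T:ℝ)+1) := by positivity
          linarith
        · linarith
        · linarith
      have h3 : ((T:ℝ)+1)^(1-s) * (1/((T:ℝ)+1)) = ((T:ℝ)+1)^(-s) := by
        rw [one_div, ← Real.rpow_neg_one, ← Real.rpow_add hT]
        congr 1
        ring
      have h4 : 0 < ((T:ℝ)+1)^(1-s) := Real.rpow_pos_of_pos hT _
      rw [h1]
      calc ((T:ℝ)+1)^(1-s) * (1 + 1/((T:ℝ)+1))^(1-s) - ((T:ℝ)+1)^(1-s)
          ≤ ((T:ℝ)+1)^(1-s) * (1 + (1-s) * (1/((T:ℝ)+1))) - ((T:ℝ)+1)^(1-s) := by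
            have := mul_le_mul_of_nonneg_left h2 h4.le
            linarith
        _ = (((T:ℝ)+1)^(1-s) * (1/((T:ℝ)+1))) * (1-s) := by ring
        _ = ((T:ℝ)+1)^(-s) * (1-s) := by rw [h3]
    have e : ((((T+1:ℕ):ℝ)+1)^(1 - s) - 1) / (1 - s)
        = (((T:ℝ)+1)^(1 - s) - 1) / (1 - s) + (((T:ℝ)+1+1)^(1-s) - ((T:ℝ)+1)^(1-s)) / (1-s) := by
      push_cast
      ring
    rw [e]
    linarith


lemma Run.inv_ge (h : Run lam c p a b d) {L κ : ℝ} (hL : 1 ≤ L) {T : ℕ} (hT : 0 < b T)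
    (hp : ∀ i < T, p i ≤ L * ((i:ℝ)+1)^κ) :
    1 + (1/L^2) * ∑ i ∈ Finset.range T, ((i:ℝ)+1)^(-(2*κ)) ≤ 1 / b T := by
  have key : ∀ j ≤ T, 1 + (1/L^2) * ∑ i ∈ Finset.range j, ((i:ℝ)+1)^(-(2*κ)) ≤ 1 / b j := by
    intro j
    induction j with
    | zero =>
      intro _
      have h0 : 0 < b 0 := lt_of_lt_of_le hT (h.anti (Nat.zero_le T))
      simp only [Finset.range_zero, Finset.sum_empty, mul_zero, add_zero]
      rw [le_div_iff₀ h0]
      linarith [h.b0]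
    | succ j ih =>
      intro hj
      have ih := ih (by omega)
      have hbj : 0 < b (j+1) := lt_of_lt_of_le hT (h.anti hj)
      have hab : 0 < b j - (a j)^2 := by rw [← h.bs]; exact hbj
      have hpos : (0:ℝ) < (j:ℝ)+1 := by positivity
      have hP : 0 < L * ((j:ℝ)+1)^κ := by
        have := Real.rpow_pos_of_pos hpos κ
        positivity
      have h1 : b j ≤ a j * (L * ((j:ℝ)+1)^κ) :=
        (h.bap j).trans (mul_le_mul_of_nonneg_left (hp j (by omega)) (h.a0 j))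
      have h2 := inv_step hab hP h1
      rw [h.bs, Finset.sum_range_succ, mul_add, ← add_assoc]
      have h3 : 1 / (L * ((j:ℝ)+1)^κ)^2 = (1/L^2) * ((j:ℝ)+1)^(-(2*κ)) := by
        rw [mul_pow, Real.rpow_neg hpos.le, mul_comm 2 κ, Real.rpow_mul hpos.le, Real.rpow_two]
        rw [one_div, one_div, mul_inv]
      linarith
  exact key T le_rfl

set_option maxHeartbeats 1600000 in
/-- The growth of `p` is at most of order `m ^ κ` when `lam (1 - κ) < 2`. -/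
theorem exists_L {lam c κ : ℝ} (hlam : 0 < lam) (hc : 0 ≤ c) (hκ0 : 0 ≤ κ) (hκ : κ < 1/2)
    (hlκ : lam * (1 - κ) < 2) :
    ∃ L : ℝ, 1 ≤ L ∧ ∀ (p a b : ℕ → ℝ) (d : ℕ → ℕ), Run lam c p a b d → ∀ m, 0 < b m →
      p m < L * ((m:ℝ)+1)^κ := by
  set ν : ℝ := (1 - lam * (1 - κ) / 2) / (4 * lam) with hν
  set q : ℝ := (1 + lam * (1 - κ) / 2) / 2 with hq
  have hν0 : 0 < ν := by
    rw [hν]
    apply div_pos <;> linarith
  have hq0 : 0 < q := by
    have : 0 < lam * (1 - κ) := mul_pos hlam (by linarith)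
    rw [hq]; linarith
  have hq1 : q < 1 := by rw [hq]; linarith
  have hqν : lam * (1-κ)/2 + 2 * lam * ν = q := by
    rw [hν, hq]
    field_simp
    ring
  set s := Real.sqrt q with hs
  have hs0 : 0 < s := Real.sqrt_pos.2 hq0
  have hs1 : s < 1 := by rw [hs, Real.sqrt_lt' one_pos]; simpa using hq1
  set L : ℝ := 1 + 1/(1-2*κ) + 1/ν + (2 + s * (c / Real.sqrt ν)) / (1 - s) with hL
  have hk2 : 0 < 1 - 2*κ := by linarith
  have e1 : 0 < 1/(1-2*κ) := by positivity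
  have e2 : 0 < 1/ν := by positivity
  have e3 : 0 < (2 + s * (c / Real.sqrt ν)) / (1 - s) := by
    apply div_pos _ (by linarith)
    positivity
  have hL1 : 1 ≤ L := by rw [hL]; linarith
  have hLL : L ≤ L^2 := by nlinarith
  refine ⟨L, hL1, ?_⟩
  intro p a b d h
  by_contra hcon
  push Not at hcon
  classical
  obtain ⟨T, ⟨hT, hpT⟩, hmin⟩ : ∃ T, (0 < b T ∧ L * ((T:ℝ)+1)^κ ≤ p T) ∧
      ∀ i < T, ¬ (0 < b i ∧ L * ((i:ℝ)+1)^κ ≤ p i) :=
    ⟨Nat.find hcon, Nat.find_spec hcon, fun i hi => Nat.find_min hcon hi⟩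
  have hpi : ∀ i < T, p i ≤ L * ((i:ℝ)+1)^κ := by
    intro i hi
    have h1 := hmin i hi
    have h2 : 0 < b i := lt_of_lt_of_le hT (h.anti hi.le)
    by_contra h3
    push Not at h3
    exact h1 ⟨h2, h3.le⟩
  have hinv := h.inv_ge hL1 hT hpi
  have hTpos : (0:ℝ) < (T:ℝ)+1 := by positivity
  have hT1 : (1:ℝ) ≤ (T:ℝ)+1 := by
    have : (0:ℝ) ≤ T := Nat.cast_nonneg T
    linarith
  have hTk : 1 ≤ ((T:ℝ)+1)^κ := Real.one_le_rpow hT1 hκ0
  have hpL : L ≤ p T := by nlinarith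
  have hp0 : 0 < p T := by linarith
  set y : ℝ := (p T)^2 / b T with hy
  have hy0 : 0 < y := by positivity
  have hb1 : b T ≤ 1 := (h.anti (Nat.zero_le T)).trans h.b0
  -- (3)
  have hyL : L^2 ≤ y := by
    rw [hy, le_div_iff₀ hT]
    have h1 : L^2 ≤ (p T)^2 := pow_le_pow_left₀ (by linarith) hpL 2
    have h2 : L^2 * b T ≤ L^2 * 1 := mul_le_mul_of_nonneg_left hb1 (by positivity)
    linarith
  -- (2)
  have hyT : ((T:ℝ)+1) ≤ (1-2*κ) * y := by
    have h1 := sum_rpow_ge (s := 2*κ) (by linarith) (by linarith) T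
    have h2 : 1 + (1/L^2) * ((((T:ℝ)+1)^(1 - 2*κ) - 1) / (1 - 2*κ)) ≤ 1 / b T := by
      refine le_trans ?_ hinv
      have := mul_le_mul_of_nonneg_left h1 (show 0 ≤ 1/L^2 by positivity)
      linarith
    have h3 : L^2 * ((T:ℝ)+1)^(2*κ) ≤ (p T)^2 := by
      have h4 : (L * ((T:ℝ)+1)^κ)^2 ≤ (p T)^2 := pow_le_pow_left₀ (by positivity) hpT 2
      rw [mul_pow, ← Real.rpow_two (((T:ℝ)+1)^κ), ← Real.rpow_mul hTpos.le, mul_comm κ 2] at h4
      exact h4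
    have h5 : L^2 * ((T:ℝ)+1)^(2*κ) * (1 + (1/L^2) * ((((T:ℝ)+1)^(1 - 2*κ) - 1) / (1 - 2*κ))) ≤ y := by
      rw [hy, div_eq_mul_one_div ((p T)^2)]
      have hW : 0 < ((T:ℝ)+1)^(2*κ) := Real.rpow_pos_of_pos hTpos _
      apply mul_le_mul h3 h2 _ (by positivity)
      have h6 : 1 ≤ ((T:ℝ)+1)^(1 - 2*κ) := Real.one_le_rpow hT1 hk2.le
      have h7 : 0 ≤ (((T:ℝ)+1)^(1 - 2*κ) - 1) / (1 - 2*κ) := div_nonneg (by linarith) hk2.le
      positivity
    have h8 : L^2 * ((T:ℝ)+1)^(2*κ) * (1 + (1/L^2) * ((((T:ℝ)+1)^(1 - 2*κ) - 1) / (1 - 2*κ)))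
        = ((T:ℝ)+1)^(2*κ) * (L^2 - 1/(1-2*κ)) + ((T:ℝ)+1)^(2*κ) * ((T:ℝ)+1)^(1 - 2*κ) / (1-2*κ) := by
      have : L ≠ 0 := by linarith
      field_simp
      ring
    have h9 : ((T:ℝ)+1)^(2*κ) * ((T:ℝ)+1)^(1 - 2*κ) = (T:ℝ)+1 := by
      rw [← Real.rpow_add hTpos]
      have : 2*κ + (1 - 2*κ) = 1 := by ring
      rw [this, Real.rpow_one]
    rw [h8, h9] at h5
    have h10 : 0 ≤ ((T:ℝ)+1)^(2*κ) * (L^2 - 1/(1-2*κ)) := by
      apply mul_nonneg (Real.rpow_pos_of_pos hTpos _).le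
      have : 1/(1-2*κ) ≤ L := by rw [hL]; linarith
      linarith
    have h11 : ((T:ℝ)+1) / (1-2*κ) ≤ y := by linarith
    rw [div_le_iff₀ hk2] at h11
    linarith
  -- (4)
  have hpot := h.pot T hT
  have hd : (d T : ℝ) ≤ y * (1 - κ) / 2 := by
    have : (p T)^2 / b T = y := rfl
    rw [this] at hpot
    nlinarith
  -- (5)
  set n : ℕ := ⌈ν * y⌉₊ with hn
  have hνy : 1 ≤ ν * y := by
    have h1 : 1/ν ≤ L := by rw [hL]; linarith
    have h2 : 1/ν ≤ y := by linarith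
    rw [div_le_iff₀ hν0] at h2
    linarith
  have hn1 : ν * y ≤ n := Nat.le_ceil _
  have hn2 : (n:ℝ) ≤ 2 * (ν * y) := by
    have := Nat.ceil_lt_add_one (show 0 ≤ ν * y by positivity)
    linarith
  have hn0 : 1 ≤ n := by
    have : (1:ℝ) ≤ n := by linarith
    exact_mod_cast this
  -- (6)
  have hqo := h.qo T n hn0
  have g1 : Real.sqrt (lam * (d T + n)) ≤ s * Real.sqrt y := by
    rw [hs, ← Real.sqrt_mul hq0.le]
    apply Real.sqrt_le_sqrt
    have : lam * ((d T:ℝ) + n) ≤ lam * (y * (1 - κ) / 2 + 2 * (ν * y)) := by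
      apply mul_le_mul_of_nonneg_left _ hlam.le
      linarith
    refine this.trans (le_of_eq ?_)
    rw [← hqν]
    ring
  have g2 : Real.sqrt (b T) = p T / Real.sqrt y := by
    rw [hy, Real.sqrt_div (sq_nonneg _), Real.sqrt_sq hp0.le]
    have : Real.sqrt (b T) ≠ 0 := (Real.sqrt_pos.2 hT).ne'
    field_simp
  have g3 : c / Real.sqrt n ≤ (c / Real.sqrt ν) / Real.sqrt y := by
    rw [div_div, ← Real.sqrt_mul hν0.le]
    apply div_le_div_of_nonneg_left hc (Real.sqrt_pos.2 (by positivity))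
    exact Real.sqrt_le_sqrt hn1
  have hsy : 0 < Real.sqrt y := Real.sqrt_pos.2 hy0
  have g4 : p T - 2 ≤ s * (p T + c / Real.sqrt ν) := by
    refine hqo.trans ?_
    calc Real.sqrt (lam * (d T + n)) * (Real.sqrt (b T) + c / Real.sqrt n)
        ≤ (s * Real.sqrt y) * (p T / Real.sqrt y + (c / Real.sqrt ν) / Real.sqrt y) := by
          apply mul_le_mul g1 _ (by positivity) (by positivity)
          rw [g2]
          linarith
      _ = s * (p T + c / Real.sqrt ν) := by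
          field_simp
  have g5 : p T ≤ (2 + s * (c / Real.sqrt ν)) / (1 - s) := by
    rw [le_div_iff₀ (by linarith)]
    linarith
  have g6 : (2 + s * (c / Real.sqrt ν)) / (1 - s) < L := by rw [hL]; linarith
  linarith

/-- Decay of `b`. -/
theorem Run.decay (h : Run lam c p a b d) {L κ : ℝ} (hL : 1 ≤ L) (hκ0 : 0 ≤ κ)
    (hp : ∀ m, 0 < b m → p m < L * ((m:ℝ)+1)^κ) {m : ℕ} (hm : 1 ≤ m) :
    Real.sqrt (b m) ≤ L * (m:ℝ)^(κ - 1/2) := by
  rcases (h.bn m).eq_or_lt with h0 | h0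
  · rw [← h0, Real.sqrt_zero]
    positivity
  have hinv := h.inv_ge hL h0 (fun i hi => (hp i (lt_of_lt_of_le h0 (h.anti hi.le))).le)
  have hm0 : (0:ℝ) < m := by exact_mod_cast hm
  have h1 : (m:ℝ) * (m:ℝ)^(-(2*κ)) ≤ ∑ i ∈ Finset.range m, ((i:ℝ)+1)^(-(2*κ)) := by
    have : ∑ _i ∈ Finset.range m, (m:ℝ)^(-(2*κ)) ≤ ∑ i ∈ Finset.range m, ((i:ℝ)+1)^(-(2*κ)) := by
      apply Finset.sum_le_sum
      intro i hi
      rw [Finset.mem_range] at hi
      apply Real.rpow_le_rpow_of_nonpos (by positivity)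
      · exact_mod_cast hi
      · linarith
    simpa using this
  have h2 : (1/L^2) * (m:ℝ)^(1 - 2*κ) ≤ 1 / b m := by
    have h3 : (m:ℝ) * (m:ℝ)^(-(2*κ)) = (m:ℝ)^(1 - 2*κ) := by
      rw [sub_eq_add_neg, Real.rpow_add hm0, Real.rpow_one]
    rw [h3] at h1
    have := mul_le_mul_of_nonneg_left h1 (show 0 ≤ 1/L^2 by positivity)
    linarith
  have h4 : b m ≤ (L * (m:ℝ)^(κ - 1/2))^2 := by
    have hW : 0 < (m:ℝ)^(1 - 2*κ) := Real.rpow_pos_of_pos hm0 _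
    have h5 : ((m:ℝ)^(κ - 1/2))^2 = ((m:ℝ)^(1 - 2*κ))⁻¹ := by
      rw [← Real.rpow_two, ← Real.rpow_mul hm0.le, ← Real.rpow_neg hm0.le]
      congr 1
      ring
    rw [mul_pow, h5]
    rw [le_div_iff₀ h0] at h2
    have hL0 : 0 < L^2 := by positivity
    rw [← div_eq_mul_inv, le_div_iff₀ hW]
    have : b m * (m:ℝ)^(1 - 2*κ) = L^2 * (1 / L^2 * (m:ℝ)^(1 - 2*κ) * b m) := by
      field_simp
    rw [this]
    nlinarith
  calc Real.sqrt (b m) ≤ Real.sqrt ((L * (m:ℝ)^(κ - 1/2))^2) := Real.sqrt_le_sqrt h4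
    _ = L * (m:ℝ)^(κ - 1/2) := Real.sqrt_sq (by positivity)

end Pool.Agent.H40d42
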