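import Pool.Agent.MPd42a57.Defs
import Pool.Agent.H40d42.Scalar

open Pool.Agent.MPd42a57

namespace Pool.Agent.H40d42

set_option linter.unusedSectionVars false

variable {H : Type*} [NormedAddCommGroup H] [InnerProductSpace ℝ H] {D : Set H}

/-- The sum of the absolute values of the coefficients. -/
noncomputable def l1 (z : D →₀ ℝ) : ℝ := ∑ g ∈ z.support, |z g|

/-- The vector with the given coefficients. -/
noncomputable def ev (z : D →₀ ℝ) : H := Finsupp.linearCombination ℝ (Subtype.val : D → H) z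

lemma l1_eq {z : D →₀ ℝ} {S : Finset D} (h : z.support ⊆ S) : l1 z = ∑ g ∈ S, |z g| := by
  unfold l1
  apply Finset.sum_subset h
  intro g _ hg
  rw [Finsupp.notMem_support_iff] at hg
  rw [hg, abs_zero]

lemma l1_nonneg (z : D →₀ ℝ) : 0 ≤ l1 z := Finset.sum_nonneg (fun _ _ => abs_nonneg _)

lemma l1_add_le (z w : D →₀ ℝ) : l1 (z + w) ≤ l1 z + l1 w := by
  classical
  rw [l1_eq (Finset.subset_union_left : z.support ⊆ z.support ∪ w.support),
    l1_eq (Finset.subset_union_right : w.support ⊆ z.support ∪ w.support),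
    l1_eq (Finsupp.support_add : (z+w).support ⊆ z.support ∪ w.support), ← Finset.sum_add_distrib]
  apply Finset.sum_le_sum
  intro g _
  rw [Finsupp.add_apply]
  exact abs_add_le _ _

lemma l1_neg (z : D →₀ ℝ) : l1 (-z) = l1 z := by
  unfold l1
  rw [Finsupp.support_neg]
  apply Finset.sum_congr rfl
  intro g _
  rw [Finsupp.neg_apply, abs_neg]

lemma l1_sub_ge (z w : D →₀ ℝ) : l1 z - l1 w ≤ l1 (z - w) := by
  have := l1_add_le (z - w) w
  rw [sub_add_cancel] at this
  linarith

lemma l1_single (g : D) (t : ℝ) : l1 (Finsupp.single g t) = |t| := by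
  classical
  rw [l1_eq (Finsupp.support_single_subset : (Finsupp.single g t).support ⊆ ({g} : Finset D)),
    Finset.sum_singleton, Finsupp.single_eq_same]

lemma l1_zero : l1 (0 : D →₀ ℝ) = 0 := by simp [l1]

lemma l1_smul (c : ℝ) (z : D →₀ ℝ) : l1 (c • z) = |c| * l1 z := by
  classical
  rw [l1_eq (Finsupp.support_smul : (c • z).support ⊆ z.support), l1, Finset.mul_sum]
  apply Finset.sum_congr rfl
  intro g _
  rw [Finsupp.smul_apply, smul_eq_mul, abs_mul]

/-- A pick outside the support adds to the coefficient sum. -/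
lemma l1_add_single_new {z : D →₀ ℝ} {g : D} (hg : g ∉ z.support) (t : ℝ) :
    l1 (z + Finsupp.single g t) = l1 z + |t| := by
  classical
  have h1 : (z + Finsupp.single g t).support ⊆ insert g z.support := by
    refine Finsupp.support_add.trans ?_
    intro x hx
    rw [Finset.mem_union] at hx
    rw [Finset.mem_insert]
    rcases hx with hx | hx
    · exact Or.inr hx
    · left
      exact Finset.mem_singleton.1 (Finsupp.support_single_subset hx)
  rw [l1_eq h1, Finset.sum_insert hg, l1, add_comm]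
  congr 1
  · apply Finset.sum_congr rfl
    intro x hx
    have : x ≠ g := fun h => hg (h ▸ hx)
    rw [Finsupp.add_apply, Finsupp.single_eq_of_ne this, add_zero]
  · rw [Finsupp.notMem_support_iff] at hg
    rw [Finsupp.add_apply, hg, Finsupp.single_eq_same, zero_add]

/-- In the span of linearly independent vectors there is a vector with prescribed inner products. -/
lemma exists_dual {ι : Type*} [Fintype ι] (v : ι → H) (hv : LinearIndependent ℝ v) (e : ι → ℝ) :
    ∃ F ∈ Submodule.span ℝ (Set.range v), ∀ i, inner ℝ F (v i) = e i := by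
  classical
  have hG := Matrix.posDef_gram_of_linearIndependent (𝕜 := ℝ) hv
  have hdet : IsUnit (Matrix.gram ℝ v).det := hG.det_pos.ne'.isUnit
  set c : ι → ℝ := (Matrix.gram ℝ v)⁻¹.mulVec e with hc
  refine ⟨∑ i, c i • v i, ?_, ?_⟩
  · exact Submodule.sum_mem _ (fun i _ => Submodule.smul_mem _ _ (Submodule.subset_span ⟨i, rfl⟩))
  · intro i
    have h1 : (Matrix.gram ℝ v).mulVec c = e := by
      rw [hc, Matrix.mulVec_mulVec, Matrix.mul_nonsing_inv _ hdet, Matrix.one_mulVec]
    have h2 := congrFun h1 i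
    rw [← h2, Matrix.mulVec, dotProduct, sum_inner]
    apply Finset.sum_congr rfl
    intro j _
    rw [real_inner_smul_left, Matrix.gram_apply, real_inner_comm, mul_comm]

/-- Quasi-orthogonality bounds the coefficient sum, for a linearly independent dictionary. -/
theorem coef_bound {lam : ℝ} (hlam : 0 ≤ lam) (hli : LinearIndependent ℝ (Subtype.val : D → H))
    (hQ : QuasiOrthogonal lam D) (z : D →₀ ℝ) {N : ℕ} (hN : z.support.card ≤ N) :
    l1 z ≤ Real.sqrt (lam * N) * ‖ev z‖ := by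
  classical
  rcases Nat.eq_zero_or_pos z.support.card with h0 | h0
  · have : z = 0 := by
      rw [Finset.card_eq_zero, Finsupp.support_eq_empty] at h0
      exact h0
    rw [this, l1_zero]
    positivity
  set n := z.support.card with hn
  obtain ⟨M, φ, hM, hφD, hspan, hφ⟩ := hQ n (fun i => ((z.support.equivFin.symm i : D) : H)) h0
    (fun i => (z.support.equivFin.symm i : D).2)
  set S : Finset D := Finset.univ.image (fun j : Fin M => (⟨φ j, hφD j⟩ : D)) with hS
  have hrange : Set.range φ = (Subtype.val : D → H) '' (S : Set D) := by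
    ext x
    simp only [Set.mem_range, Set.mem_image, hS, Finset.coe_image, Finset.coe_univ, Set.image_univ]
    constructor
    · rintro ⟨j, rfl⟩
      exact ⟨⟨φ j, hφD j⟩, ⟨j, rfl⟩, rfl⟩
    · rintro ⟨y, ⟨j, rfl⟩, rfl⟩
      exact ⟨j, rfl⟩
  have hsub : z.support ⊆ S := by
    intro g hg
    by_contra hgS
    have h1 := hli.notMem_span_image (s := (S : Set D)) (x := g) (by simpa using hgS)
    apply h1
    rw [← hrange]
    have := hspan (z.support.equivFin ⟨g, hg⟩)
    simpa using this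
  -- the dual vector
  set v : S → H := fun i => ((i : D) : H) with hv
  have hvli : LinearIndependent ℝ v := hli.comp (fun i : S => (i : D)) Subtype.val_injective
  obtain ⟨F, hF, hFi⟩ := exists_dual v hvli (fun i => SignType.sign (z i))
  have hFin : ∀ g ∈ S, inner ℝ F (g : H) = SignType.sign (z g) := fun g hg => hFi ⟨g, hg⟩
  have hFspan : F ∈ Submodule.span ℝ (Set.range φ) := by
    rw [hrange]
    refine Submodule.span_mono ?_ hF
    rintro x ⟨i, rfl⟩
    exact ⟨i, i.2, rfl⟩
  obtain ⟨j, hj⟩ := hφ F hFspan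
  have hj1 : |inner ℝ F (φ j)| ≤ 1 := by
    have : inner ℝ F (φ j) = SignType.sign (z ⟨φ j, hφD j⟩) := by
      apply hFin ⟨φ j, hφD j⟩
      rw [hS, Finset.mem_image]
      exact ⟨j, Finset.mem_univ _, rfl⟩
    rw [this]
    rcases lt_trichotomy (z ⟨φ j, hφD j⟩) 0 with h | h | h
    · rw [sign_neg h]; simp
    · rw [h]; simp
    · rw [sign_pos h]; simp
  have hlampos : 0 < lam := by
    rcases hlam.eq_or_lt with h | h
    · exfalso
      rw [← h, zero_mul] at hM
      have : M = 0 := by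
        have : (M:ℝ) = 0 := le_antisymm hM (Nat.cast_nonneg M)
        exact_mod_cast this
      subst this
      exact Fin.elim0 j
    · exact h
  have hnpos : (0:ℝ) < n := by exact_mod_cast h0
  have hFn : ‖F‖ ≤ Real.sqrt (lam * n) := by
    have hp : 0 < lam * n := by positivity
    have h1 : (lam * n) ^ (-(1/2) : ℝ) * ‖F‖ ≤ 1 := hj.trans hj1
    rw [Real.rpow_neg hp.le, ← Real.sqrt_eq_rpow] at h1
    have h2 : 0 < Real.sqrt (lam * n) := Real.sqrt_pos.2 hp
    rw [inv_mul_le_iff₀ h2, mul_one] at h1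
    exact h1
  have hinner : inner ℝ F (ev z) = l1 z := by
    rw [ev, Finsupp.linearCombination_apply, Finsupp.sum, inner_sum, l1]
    apply Finset.sum_congr rfl
    intro g hg
    rw [real_inner_smul_right, hFin g (hsub hg)]
    exact self_mul_sign (z g)
  calc l1 z = inner ℝ F (ev z) := hinner.symm
    _ ≤ ‖F‖ * ‖ev z‖ := real_inner_le_norm _ _
    _ ≤ Real.sqrt (lam * N) * ‖ev z‖ := by
      apply mul_le_mul_of_nonneg_right _ (norm_nonneg _)
      refine hFn.trans (Real.sqrt_le_sqrt ?_)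
      apply mul_le_mul_of_nonneg_left _ hlam
      exact_mod_cast hN


lemma ev_add (z w : D →₀ ℝ) : ev (z + w) = ev z + ev w := map_add _ _ _
lemma ev_sub (z w : D →₀ ℝ) : ev (z - w) = ev z - ev w := map_sub _ _ _
lemma ev_smul (c : ℝ) (z : D →₀ ℝ) : ev (c • z) = c • ev z := map_smul _ _ _
lemma ev_single (g : D) (t : ℝ) : ev (Finsupp.single g t) = t • (g : H) := by
  simp [ev]
lemma ev_zero : ev (0 : D →₀ ℝ) = 0 := by simp [ev]

/-- For `f` in `A_1(D)`: an inner product bound on `D` passes to `f`. -/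
lemma inner_le_of_mem_A1 {f : H} (hf : f ∈ A1 D) {w : H} {M : ℝ} (h : ∀ g ∈ D, |inner ℝ w g| ≤ M) :
    inner ℝ w f ≤ M := by
  have hcl : IsClosed {x : H | inner ℝ w x ≤ M} :=
    isClosed_le (continuous_const.inner continuous_id) continuous_const
  have hconv : Convex ℝ {x : H | inner ℝ w x ≤ M} := by
    intro x hx y hy a b ha hb hab
    simp only [Set.mem_ofPred_eq] at hx hy ⊢
    rw [inner_add_right, real_inner_smul_right, real_inner_smul_right]
    calc a * inner ℝ w x + b * inner ℝ w y ≤ a * M + b * M := by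
          apply add_le_add <;> apply mul_le_mul_of_nonneg_left <;> assumption
      _ = M := by rw [← add_mul, hab, one_mul]
  have hsub : D ∪ -D ⊆ {x : H | inner ℝ w x ≤ M} := by
    rintro x (hx | hx)
    · exact (le_abs_self _).trans (h x hx)
    · have := h (-x) hx
      rw [inner_neg_right, abs_neg] at this
      exact (le_abs_self _).trans this
  have := closure_minimal (convexHull_min hsub hconv) hcl hf
  exact this

/-- For `f` in `A_1(D)` some signed element nearly norms `w` as well as `f`. -/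
lemma exists_sign {f : H} (hf : f ∈ A1 D) (w : H) {ε : ℝ} (hε : 0 < ε) :
    ∃ g : D, ∃ s : ℝ, |s| = 1 ∧ inner ℝ w f ≤ s * inner ℝ w (g : H) + ε := by
  by_contra hcon
  push Not at hcon
  have h := inner_le_of_mem_A1 hf (w := w) (M := inner ℝ w f - ε) (by
    intro g hg
    rcases abs_choice (inner ℝ w g) with h1 | h1
    · have := hcon ⟨g, hg⟩ 1 (by norm_num)
      rw [h1]
      simp only at this
      linarith
    · have := hcon ⟨g, hg⟩ (-1) (by norm_num)
      rw [h1]
      simp only at this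
      linarith)
  linarith

lemma norm_le_one_of_mem_A1 (hD : ∀ g ∈ D, ‖g‖ = 1) {f : H} (hf : f ∈ A1 D) : ‖f‖ ≤ 1 := by
  have h := inner_le_of_mem_A1 hf (w := f) (M := ‖f‖) (by
    intro g hg
    have := abs_real_inner_le_norm f g
    rw [hD g hg, mul_one] at this
    exact this)
  rw [real_inner_self_eq_norm_sq] at h
  by_contra hcon
  push Not at hcon
  nlinarith

/-- Maurey's lemma, by the greedy argument. -/
lemma maurey_aux (hD : ∀ g ∈ D, ‖g‖ = 1) {f : H} (hf : f ∈ A1 D) (n : ℕ) :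
    ∃ z : D →₀ ℝ, z.support.card ≤ n ∧ l1 z ≤ n ∧ ‖(n:ℝ) • f - ev z‖^2 ≤ 5 * n := by
  classical
  induction n with
  | zero => exact ⟨0, by simp, by simp [l1_zero], by simp [ev_zero]⟩
  | succ n ih =>
    obtain ⟨z, h1, h2, h3⟩ := ih
    obtain ⟨g, s, hs, hg⟩ := exists_sign hf ((n:ℝ) • f - ev z) (ε := 1/2) (by norm_num)
    refine ⟨z + Finsupp.single g s, ?_, ?_, ?_⟩
    · refine (Finset.card_le_card Finsupp.support_add).trans ?_
      refine (Finset.card_union_le _ _).trans ?_
      have : (Finsupp.single g s).support.card ≤ 1 :=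
        (Finset.card_le_card Finsupp.support_single_subset).trans (by simp)
      omega
    · have := l1_add_le z (Finsupp.single g s)
      rw [l1_single, hs] at this
      push_cast
      linarith
    · rw [ev_add, ev_single]
      set w := (n:ℝ) • f - ev z with hw
      have e1 : ((n+1:ℕ):ℝ) • f - (ev z + s • (g:H)) = w + (f - s • (g:H)) := by
        rw [hw]
        push_cast
        rw [add_smul, one_smul]
        abel
      rw [e1, norm_add_sq_real, inner_sub_right, real_inner_smul_right]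
      have h4 : ‖f - s • (g:H)‖ ≤ 2 := by
        have := norm_sub_le f (s • (g:H))
        rw [norm_smul, hD g g.2, Real.norm_eq_abs, hs] at this
        have h5 := norm_le_one_of_mem_A1 hD hf
        linarith
      have h5 : ‖f - s • (g:H)‖^2 ≤ 4 := by
        have := pow_le_pow_left₀ (norm_nonneg _) h4 2
        linarith
      push_cast
      linarith

lemma maurey (hD : ∀ g ∈ D, ‖g‖ = 1) {f : H} (hf : f ∈ A1 D) {n : ℕ} (hn : 1 ≤ n) :
    ∃ u : D →₀ ℝ, u.support.card ≤ n ∧ l1 u ≤ 1 ∧ ‖f - ev u‖ ≤ Real.sqrt 5 / Real.sqrt n := by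
  obtain ⟨z, h1, h2, h3⟩ := maurey_aux hD hf n
  have hn0 : (0:ℝ) < n := by exact_mod_cast hn
  refine ⟨((n:ℝ)⁻¹) • z, ?_, ?_, ?_⟩
  · exact (Finset.card_le_card Finsupp.support_smul).trans h1
  · rw [l1_smul, abs_of_pos (inv_pos.2 hn0), inv_mul_le_iff₀ hn0]
    linarith
  · rw [ev_smul]
    have e1 : f - (n:ℝ)⁻¹ • ev z = (n:ℝ)⁻¹ • ((n:ℝ) • f - ev z) := by
      rw [smul_sub, smul_smul, inv_mul_cancel₀ hn0.ne', one_smul]
    rw [e1, norm_smul, Real.norm_eq_abs, abs_of_pos (inv_pos.2 hn0), inv_mul_le_iff₀ hn0]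
    have h4 : ‖(n:ℝ) • f - ev z‖ ≤ Real.sqrt (5 * n) := Real.le_sqrt_of_sq_le h3
    refine h4.trans (le_of_eq ?_)
    rw [Real.sqrt_mul (by norm_num)]
    have h5 : Real.sqrt n * Real.sqrt n = n := Real.mul_self_sqrt hn0.le
    have h6 : Real.sqrt (n:ℝ) ≠ 0 := (Real.sqrt_pos.2 hn0).ne'
    rw [mul_div_assoc', eq_div_iff h6, mul_assoc, h5]
    ring

/-- The coefficients of `f - r m` given by the picks. -/
noncomputable def XX (φ r : ℕ → H) (hφ : ∀ m, φ m ∈ D) (m : ℕ) : D →₀ ℝ :=
  ∑ i ∈ Finset.range m, Finsupp.single (⟨φ i, hφ i⟩ : D) (inner ℝ (r i) (φ i))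

open Classical in
/-- The set of elements picked in the first `m` steps. -/
noncomputable def PP (φ : ℕ → H) (hφ : ∀ m, φ m ∈ D) (m : ℕ) : Finset D :=
  (Finset.range m).image (fun i => (⟨φ i, hφ i⟩ : D))

lemma XX_succ (φ r : ℕ → H) (hφ : ∀ m, φ m ∈ D) (m : ℕ) :
    XX φ r hφ (m+1) = XX φ r hφ m + Finsupp.single (⟨φ m, hφ m⟩ : D) (inner ℝ (r m) (φ m)) := by
  rw [XX, Finset.sum_range_succ, ← XX]

lemma PP_succ (φ : ℕ → H) (hφ : ∀ m, φ m ∈ D) (m : ℕ) [DecidableEq D] :
    PP φ hφ (m+1) = insert (⟨φ m, hφ m⟩ : D) (PP φ hφ m) := by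
  unfold PP
  ext x
  simp only [Finset.mem_image, Finset.mem_range, Finset.mem_insert]
  constructor
  · rintro ⟨i, hi, rfl⟩
    rcases Nat.lt_succ_iff_lt_or_eq.1 hi with h | h
    · exact Or.inr ⟨i, h, rfl⟩
    · subst h; exact Or.inl rfl
  · rintro (rfl | ⟨i, hi, rfl⟩)
    · exact ⟨m, Nat.lt_succ_self m, rfl⟩
    · exact ⟨i, by omega, rfl⟩

lemma XX_support (φ r : ℕ → H) (hφ : ∀ m, φ m ∈ D) (m : ℕ) :
    (XX φ r hφ m).support ⊆ PP φ hφ m := by
  classical
  induction m with
  | zero => simp [XX]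
  | succ m ih =>
    rw [XX_succ, PP_succ]
    refine Finsupp.support_add.trans ?_
    intro x hx
    rw [Finset.mem_union] at hx
    rw [Finset.mem_insert]
    rcases hx with hx | hx
    · exact Or.inr (ih hx)
    · exact Or.inl (Finset.mem_singleton.1 (Finsupp.support_single_subset hx))

lemma XX_ev {f : H} {φ r : ℕ → H} (h : IsPGA D f φ r) (hφ : ∀ m, φ m ∈ D) (m : ℕ) :
    f - r m = ev (XX φ r hφ m) := by
  induction m with
  | zero => rw [h.1]; simp [XX, ev_zero]
  | succ m ih =>
    rw [XX_succ, ev_add, ev_single, ← ih, (h.2 m).2.2]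
    abel

/-- The run of the scalar scheme attached to the algorithm. -/
theorem run_of_pga {lam : ℝ} (hlam : 0 ≤ lam) (hD : ∀ g ∈ D, ‖g‖ = 1)
    (hli : LinearIndependent ℝ (Subtype.val : D → H)) (hQ : QuasiOrthogonal lam D) {f : H}
    (hf : f ∈ A1 D) {φ r : ℕ → H} (h : IsPGA D f φ r) :
    Run lam (Real.sqrt 5) (fun m => 1 + l1 (XX φ r (fun i => (h.2 i).1) m))
      (fun m => |inner ℝ (r m) (φ m)|) (fun m => ‖r m‖^2)
      (fun m => (PP φ (fun i => (h.2 i).1) m).card) := by
  classical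
  have hφ : ∀ i, φ i ∈ D := fun i => (h.2 i).1
  have hbs : ∀ m, ‖r (m+1)‖^2 = ‖r m‖^2 - |inner ℝ (r m) (φ m)|^2 := by
    intro m
    rw [(h.2 m).2.2, norm_sub_sq_real, real_inner_smul_right, norm_smul, hD _ (hφ m), mul_one,
      Real.norm_eq_abs, sq_abs]
    ring
  have hb0 : ‖r 0‖ ≤ 1 := by rw [h.1]; exact norm_le_one_of_mem_A1 hD hf
  have hb1 : ∀ m, ‖r m‖^2 ≤ 1 := by
    intro m
    induction m with
    | zero =>
      have := pow_le_pow_left₀ (norm_nonneg _) hb0 2
      linarith
    | succ m ih => rw [hbs]; linarith [sq_nonneg |inner ℝ (r m) (φ m)|]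
  refine ⟨?_, ?_, ?_, ?_, ?_, hbs, ?_, ?_, ?_, ?_⟩
  · simp [PP]
  · exact hb1 0
  · intro m
    have := l1_nonneg (XX φ r (fun i => (h.2 i).1) m)
    linarith
  · intro m; positivity
  · intro m
    have h1 := abs_real_inner_le_norm (r m) (φ m)
    rw [hD _ (hφ m), mul_one] at h1
    have h2 : ‖r m‖ ≤ 1 := by
      by_contra hcon
      push Not at hcon
      nlinarith [hb1 m]
    exact h1.trans h2
  · intro m; positivity
  · intro m
    have hmax : ∀ g ∈ D, |inner ℝ (r m) g| ≤ |inner ℝ (r m) (φ m)| := (h.2 m).2.1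
    have h1 : inner ℝ (r m) f ≤ |inner ℝ (r m) (φ m)| := inner_le_of_mem_A1 hf hmax
    have h2 : r m = f - ev (XX φ r (fun i => (h.2 i).1) m) := by
      rw [← XX_ev h (fun i => (h.2 i).1) m]; abel
    have h3 : -inner ℝ (r m) (ev (XX φ r (fun i => (h.2 i).1) m)) ≤
        |inner ℝ (r m) (φ m)| * l1 (XX φ r (fun i => (h.2 i).1) m) := by
      rw [ev, Finsupp.linearCombination_apply, Finsupp.sum, inner_sum, l1, Finset.mul_sum,
        ← Finset.sum_neg_distrib]
      apply Finset.sum_le_sum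
      intro g _
      rw [real_inner_smul_right]
      calc -((XX φ r (fun i => (h.2 i).1) m) g * inner ℝ (r m) (g:H))
          ≤ |(XX φ r (fun i => (h.2 i).1) m) g * inner ℝ (r m) (g:H)| := neg_le_abs _
        _ = |inner ℝ (r m) (g:H)| * |(XX φ r (fun i => (h.2 i).1) m) g| := by
          rw [abs_mul, mul_comm]
        _ ≤ |inner ℝ (r m) (φ m)| * |(XX φ r (fun i => (h.2 i).1) m) g| :=
          mul_le_mul_of_nonneg_right (hmax g g.2) (abs_nonneg _)
    have h4 : ‖r m‖^2 = inner ℝ (r m) f - inner ℝ (r m) (ev (XX φ r (fun i => (h.2 i).1) m)) := by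
      rw [← inner_sub_right, ← h2, real_inner_self_eq_norm_sq]
    show ‖r m‖^2 ≤ |inner ℝ (r m) (φ m)| * (1 + l1 (XX φ r (fun i => (h.2 i).1) m))
    rw [h4]
    linarith
  · intro m
    by_cases hnew : (⟨φ m, hφ m⟩ : D) ∈ PP φ hφ m
    · right
      constructor
      · show (PP φ (fun i => (h.2 i).1) (m+1)).card = _
        rw [PP_succ, Finset.insert_eq_of_mem hnew]
      · show 1 + l1 (XX φ r (fun i => (h.2 i).1) m) - _ ≤ 1 + l1 (XX φ r (fun i => (h.2 i).1) (m+1))
        rw [XX_succ]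
        have h1 := l1_sub_ge (XX φ r (fun i => (h.2 i).1) m)
          (-Finsupp.single (⟨φ m, hφ m⟩ : D) (inner ℝ (r m) (φ m)))
        rw [l1_neg, l1_single, sub_neg_eq_add] at h1
        linarith
    · left
      constructor
      · show (PP φ (fun i => (h.2 i).1) (m+1)).card = _
        rw [PP_succ, Finset.card_insert_of_notMem hnew]
      · show 1 + l1 (XX φ r (fun i => (h.2 i).1) (m+1)) = 1 + l1 (XX φ r (fun i => (h.2 i).1) m) + _
        rw [XX_succ, l1_add_single_new]
        · ring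
        · intro hcon
          exact hnew (XX_support φ r hφ m hcon)
  · intro m n hn
    obtain ⟨u, hu1, hu2, hu3⟩ := maurey hD hf hn
    set X := XX φ r (fun i => (h.2 i).1) m with hX
    have hcard : (X - u).support.card ≤ (PP φ (fun i => (h.2 i).1) m).card + n := by
      have h1 : (X - u).support ⊆ X.support ∪ u.support := Finsupp.support_sub
      have h2 := Finset.card_le_card h1
      have h3 := Finset.card_union_le X.support u.support
      have h4 := Finset.card_le_card (XX_support φ r hφ m)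
      have h5 : X.support.card ≤ (PP φ (fun i => (h.2 i).1) m).card := h4
      omega
    have hcb := coef_bound hlam hli hQ (X - u) hcard
    have h1 := l1_sub_ge X u
    have h2 : ‖ev (X - u)‖ ≤ ‖r m‖ + Real.sqrt 5 / Real.sqrt n := by
      have e1 : ev (X - u) = (f - ev u) - r m := by
        rw [ev_sub, hX, ← XX_ev h (fun i => (h.2 i).1) m]; abel
      rw [e1]
      have := norm_sub_le (f - ev u) (r m)
      linarith
    have h3 : Real.sqrt (‖r m‖^2) = ‖r m‖ := Real.sqrt_sq (norm_nonneg _)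
    show 1 + l1 X - 2 ≤ Real.sqrt (lam * (((PP φ (fun i => (h.2 i).1) m).card : ℝ) + n)) *
      (Real.sqrt (‖r m‖^2) + Real.sqrt 5 / Real.sqrt n)
    rw [h3]
    push_cast at hcb
    have h4 := mul_le_mul_of_nonneg_left h2
      (Real.sqrt_nonneg (lam * (((PP φ (fun i => (h.2 i).1) m).card : ℝ) + n)))
    linarith

/-- Upper bound for linearly independent dictionaries. -/
theorem upper_indep {lam κ : ℝ} (hlam : 0 < lam) (hκ0 : 0 ≤ κ) (hκ : κ < 1/2)
    (hlκ : lam * (1 - κ) < 2) :
    ∃ C : ℝ, 0 < C ∧ ∀ (H : Type*) [NormedAddCommGroup H] [InnerProductSpace ℝ H] (D : Set H),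
      (∀ g ∈ D, ‖g‖ = 1) → LinearIndependent ℝ (Subtype.val : D → H) → QuasiOrthogonal lam D →
      ∀ f ∈ A1 D, ∀ φ r : ℕ → H, IsPGA D f φ r → ∀ m : ℕ, 1 ≤ m → ‖r m‖ ≤ C * (m:ℝ)^(κ - 1/2) := by
  obtain ⟨L, hL, hLp⟩ := exists_L hlam (Real.sqrt_nonneg 5) hκ0 hκ hlκ
  refine ⟨L, by linarith, ?_⟩
  intro H _ _ D hD hli hQ f hf φ r h m hm
  have hrun := run_of_pga hlam.le hD hli hQ hf h
  have := hrun.decay hL hκ0 (hLp _ _ _ _ hrun) hm
  rwa [Real.sqrt_sq (norm_nonneg _)] at this

end Pool.Agent.H40d42
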